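import Pool.Agent.K3h19.CKD.Morph

/-!
# Cancellation of finite dimensional motives from self-dual Chow-Kunneth decompositions

`𝒱` is a class of smooth projective geometrically irreducible varieties over the field `k` closed
under products (for example all of them), `C` the Chow groups with rational coefficients (in the
form of their formal properties, `IsChowProj`) and `H` a Weil cohomology theory (`IsWeilProj`).
`C.comp γ δ` is the correspondence `δ ∘ γ`, `dg C Y` the diagonal and `tp C γ` the transpose of `γ`.

Let `h(Y) = M ⊕ N` be an orthogonal decomposition (`M = (Y, q)` for a projector `q` equal to its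
transpose, `N = (Y, Δ - q)`) such that the homologically trivial endomorphisms of `N` are nilpotent,
for instance `N` finite dimensional in the sense of Kimura. No condition is put on `M`. Then:

* `h(Y)` has a self-dual Chow-Kunneth decomposition if and only if `M` has one and the Kunneth
  components of `N` are algebraic; the same for Chow-Kunneth decompositions without self-duality
  (there `q` can be any projector);
* this applies to `M = h(X)(-e)`, embedded by a similitude `a : h(X)(-e) → h(Y)`, `a^t ∘ a = N · 1`,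
  in particular to a morphism `f : Y → X` of non-zero degree, where `N` is the complement of `f^*`;
* hence the existence of a (self-dual) Chow-Kunneth decomposition does not change in a chain of
  morphisms of non-zero degree (in both directions) with small complements. By the weak
  factorisation theorem and the finite dimensionality of motives of curves it is a birational
  invariant of threefolds in characteristic zero.
-/

open CategoryTheory AlgebraicGeometry

set_option autoImplicit false

universe u v w

namespace Pool.Agent.Results.MP_8a7054_ag.FiniteDimensionalComplement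

open Pool.Agent.H914 Pool.Agent.W492.BB Pool.Agent.TH133 Pool.Agent.Y107 Pool.Agent.W550.Corr
  Pool.Agent.K3h96.SD Pool.Agent.K3h19.CKD

/-- Cancellation of motives with nilpotent homologically trivial endomorphisms from (self-dual)
Chow-Kunneth decompositions, and invariance of their existence under small modifications. -/
theorem result {k : Type u} [Field k] {𝒱 : VarClass k} (C : TheoryData.{u, v, 0} 𝒱 ℚ)
    [IsChowProj C] {K : Type w} [Field K] (H : WeilTheoryData.{u, v, w} C K) [IsWeilProj H] :
    (∀ (Y : 𝒱.Obj) (q : C.A (Y.prod Y)), C.Deg Y.dim q → C.comp q q = q →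
      NilpotentEnd H (dg C Y - q) →
      ((∃ π, IsCK H Y π) ↔ (∃ π, IsCKOf H q π) ∧ AlgebraicKunneth H (dg C Y - q)) ∧
      (tp C q = q → (HasSelfDualCK H Y ↔
        (∃ π, IsCKOf H q π ∧ IsSelfDual C π) ∧ AlgebraicKunneth H (dg C Y - q)))) ∧
    (∀ (X Y : 𝒱.Obj) (e : ℤ) (a : C.A (X.prod Y)) (N : ℚ), 2 * e = (Y.dim : ℤ) - X.dim →
      C.Deg ((X.dim : ℤ) + e) a → N ≠ 0 → C.comp a (tp C a) = N • dg C X →
      NilpotentEnd H (dg C Y - N⁻¹ • C.comp (tp C a) a) →
      ((∃ π, IsCK H Y π) ↔
        (∃ π, IsCK H X π) ∧ AlgebraicKunneth H (dg C Y - N⁻¹ • C.comp (tp C a) a)) ∧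
      (HasSelfDualCK H Y ↔
        HasSelfDualCK H X ∧ AlgebraicKunneth H (dg C Y - N⁻¹ • C.comp (tp C a) a))) ∧
    (∀ (X Y : 𝒱.Obj) (f : Y ⟶ X) (N : ℚ), Y.dim = X.dim → N ≠ 0 → C.push f 1 = N • 1 →
      NilpotentEnd H (coverComplement C f N) →
      ((∃ π, IsCK H Y π) ↔
        (∃ π, IsCK H X π) ∧ AlgebraicKunneth H (coverComplement C f N)) ∧
      (HasSelfDualCK H Y ↔
        HasSelfDualCK H X ∧ AlgebraicKunneth H (coverComplement C f N))) ∧
    (∀ X X' : 𝒱.Obj, Relation.EqvGen (SmallStep H) X X' →
      ((∃ π, IsCK H X π) ↔ ∃ π, IsCK H X' π) ∧ (HasSelfDualCK H X ↔ HasSelfDualCK H X')) := by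
  have h3 : ∀ (X Y : 𝒱.Obj) (f : Y ⟶ X) (N : ℚ), Y.dim = X.dim → N ≠ 0 → C.push f 1 = N • 1 →
      NilpotentEnd H (coverComplement C f N) →
      ((∃ π, IsCK H Y π) ↔
        (∃ π, IsCK H X π) ∧ AlgebraicKunneth H (coverComplement C f N)) ∧
      (HasSelfDualCK H Y ↔
        HasSelfDualCK H X ∧ AlgebraicKunneth H (coverComplement C f N)) :=
    fun X Y f N hd hN hf hnil => iff_cover f hd hN hf hnil
  refine ⟨?_, ?_, h3, ?_⟩
  · intro Y q hq0 hqq hnil
    exact iff_motive (Y := Y) (q := q) hq0 hqq hnil
  · intro X Y e a N he ha hN haa hnil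
    exact iff_similitude he ha hN haa hnil
  · intro X X' h
    induction h with
    | rel X Y h =>
      obtain ⟨f, N, hd, hN, hf, hnil, hK⟩ := h
      obtain ⟨h1, h2⟩ := h3 X Y f N hd hN hf hnil
      exact ⟨⟨fun h => h1.2 ⟨h, hK⟩, fun h => (h1.1 h).1⟩,
        ⟨fun h => h2.2 ⟨h, hK⟩, fun h => (h2.1 h).1⟩⟩
    | refl X => exact ⟨Iff.rfl, Iff.rfl⟩
    | symm X Y _ ih => exact ⟨ih.1.symm, ih.2.symm⟩
    | trans X Y Z _ _ ih1 ih2 => exact ⟨ih1.1.trans ih2.1, ih1.2.trans ih2.2⟩

end Pool.Agent.Results.MP_8a7054_ag.FiniteDimensionalComplement
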