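import Pool.Agent.K3h19.CKD.Low

/-!
# Self-dual Chow-Kunneth decompositions from the cohomology below the middle degree

`𝒱` is a class of smooth projective geometrically irreducible varieties over the field `k` closed
under products (for example all of them), `C` the Chow groups with rational coefficients (in the
form of their formal properties, `IsChowProj`) and `H` a Weil cohomology theory (`IsWeilProj`).
`C.comp γ δ` is the correspondence `δ ∘ γ`, `dg C Y` the diagonal and `tp C γ` the transpose of `γ`.

Let `S` be a class of motives `(Y, g)`, stable under transposition, such that the homologically trivial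
morphisms (of any degree) between finitely many motives in `S` are nilpotent, for instance the class
of all motives which are finite dimensional in the sense of Kimura and O'Sullivan.

* Let `X` be a variety of dimension `d`, and suppose that for `n < d` the Kunneth projector to
  `H^n(X)` is the class of a sum of compositions `X → Y → Y → X` with `(Y, g) ∈ S` and the second
  correspondence `g`. Nothing is assumed about `H^d(X)`, and the sum need not be idempotent. Then `X`
  has a self-dual Chow-Kunneth decomposition `p`, and the projectors `p_n`, `n ≠ d`, are themselves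
  sums of this form: `h^n(X)`, `n ≠ d`, is a direct summand of a sum of twists of motives in `S`.
* This applies to `f : X → Y` if the homologically trivial self-correspondences of `Y` are nilpotent,
  the restriction `H^n(Y) → H^n(X)` is surjective for `n < d` and the product with the class of `X`
  has left inverses on `H^n(Y)`, `n < d`, given by algebraic cycles: for instance to all the smooth
  complete intersections, of multiples of an ample divisor, in abelian varieties.
-/

open CategoryTheory AlgebraicGeometry

set_option autoImplicit false

universe u v w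

namespace Pool.Agent.Results.MP_8a7054_ag.LowerHalf

open Pool.Agent.H914 Pool.Agent.W492.BB Pool.Agent.TH133 Pool.Agent.Y107 Pool.Agent.W550.Corr
  Pool.Agent.K3h96.SD Pool.Agent.K3h19.CKD

/-- Self-dual Chow-Kunneth decompositions from the factorization, modulo homological equivalence, of
the Kunneth projectors below the middle degree. -/
theorem result {k : Type u} [Field k] {𝒱 : VarClass k} (C : TheoryData.{u, v, 0} 𝒱 ℚ)
    [IsChowProj C] {K : Type w} [Field K] (H : WeilTheoryData.{u, v, w} C K) [IsWeilProj H] :
    (∀ S : Set (Mot C), NilpotentClass H S → (∀ M ∈ S, (⟨M.1, tp C M.2⟩ : Mot C) ∈ S) →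
      ∀ X : 𝒱.Obj,
        (∃ π, IsCK H X π ∧ IsSelfDual C π ∧ ∀ n, n ≠ X.dim → π n ∈ Through C S X) ↔
          ∀ n < X.dim, ∃ p ∈ Through C S X, C.Deg X.dim p ∧ ActsAsProjector H n p) ∧
    (∀ (X Y : 𝒱.Obj) (f : X ⟶ Y), NilpotentClass H {(⟨Y, dg C Y⟩ : Mot C)} →
      WeakLefschetz H f → AlgebraicLeftInverses H f →
      ∃ π, IsCK H X π ∧ IsSelfDual C π ∧
        ∀ n, n ≠ X.dim → π n ∈ Through C {(⟨Y, dg C Y⟩ : Mot C)} X) := by
  refine ⟨fun S hS htp X => ⟨?_, fun hp => selfDual_of_through hS htp hp⟩,
    fun X Y f hY hw hΛ => selfDual_of_section f hY hw hΛ⟩
  rintro ⟨π, h1, _, h3⟩ n hn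
  refine ⟨π n, h3 n hn.ne, h1.deg n, fun m a ha => ?_⟩
  by_cases hm : m = n
  · rw [if_pos hm]
    exact h1.act_self n a (by rw [← hm]; exact ha)
  · rw [if_neg hm]
    exact h1.act_ne n m a hm ha

end Pool.Agent.Results.MP_8a7054_ag.LowerHalf
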