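import Pool.Agent.K3h19.CKD.Modif

/-!
# Self-dual Chow-Kunneth decompositions of fibrations of odd relative dimension and blow-ups

`𝒱` is a class of smooth projective geometrically irreducible varieties over the field `k` closed
under products (for example all of them), `C` the Chow groups with rational coefficients (in the
form of their formal properties, `IsChowProj`) and `H` a Weil cohomology theory (`IsWeilProj`).
`C.comp γ δ` is the correspondence `δ ∘ γ`, `dg C Y` the diagonal and `tp C γ` the transpose of `γ`.

* Let the transpose-invariant projector `q` of `Y` be an orthogonal sum of pieces `h(Z)(-e)`, `Z`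
  with a self-dual Chow-Kunneth decomposition, and of hyperbolic pieces `h(Z)(-e) ⊕ h(Z)(-e')`,
  `Z` with a Chow-Kunneth decomposition, not necessarily self-dual (`Pieces`). If the complement
  of `q` is small (nilpotent homologically trivial endomorphisms and algebraic Kunneth components),
  then `Y` has a self-dual Chow-Kunneth decomposition.
* Let `f : Y → X` be a morphism of odd relative dimension `r`, `h` a divisor class on `Y` with
  `f_* (h^r) ≠ 0`, and suppose that the complement of `h(X) ⊕ h(X)(-1) ⊕ ⋯ ⊕ h(X)(-r)` in `h(Y)` is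
  small (it is zero for projective bundles). If `X` has a Chow-Kunneth decomposition, then `Y` has a
  self-dual one.
* If `X` has a self-dual Chow-Kunneth decomposition and `Z ⊆ X` is a subvariety of odd codimension
  with a Chow-Kunneth decomposition, not necessarily self-dual, then the blow-up of `X` in `Z` has a
  self-dual one (the last statement, where the complement is zero by the blow-up formula).
-/

open CategoryTheory AlgebraicGeometry

set_option autoImplicit false

universe u v w

namespace Pool.Agent.Results.MP_8a7054_ag.OddRelativeDimension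

open Pool.Agent.H914 Pool.Agent.W492.BB Pool.Agent.TH133 Pool.Agent.Y107 Pool.Agent.W550.Corr
  Pool.Agent.K3h96.SD Pool.Agent.K3h19.CKD

/-- Self-dual Chow-Kunneth decompositions from pieces, of fibrations, and of modifications. -/
theorem result {k : Type u} [Field k] {𝒱 : VarClass k} (C : TheoryData.{u, v, 0} 𝒱 ℚ)
    [IsChowProj C] {K : Type w} [Field K] (H : WeilTheoryData.{u, v, w} C K) [IsWeilProj H] :
    -- assembly from pieces
    (∀ (Y : 𝒱.Obj) (q : C.A (Y.prod Y)), Pieces H Y q → SmallComplement H q →
      HasSelfDualCK H Y) ∧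
    -- towers
    (∀ (Y Z : 𝒱.Obj) (e : ℤ) (r : ℕ) (N : ℚ) (A : ℕ → C.A (Z.prod Y)), IsTower C e r N A →
      (∃ π, IsCK H Z π) → (Odd r ∨ HasSelfDualCK H Z) → Pieces H Y (towerProjector C r N A)) ∧
    -- fibrations
    (∀ (X Y : 𝒱.Obj) (f : Y ⟶ X) (r : ℕ) (h : C.A Y) (N : ℚ), Y.dim = X.dim + r →
      C.Deg 1 h → N ≠ 0 → C.down f (h ^ r) = const C X N →
      ∃ β : ℕ → C.A Y, IsRelativeBasis C f 1 h r N β ∧ IsTower C 0 r N (relativeTower C f (𝟙 Y) β) ∧
        (SmallComplement H (towerProjector C r N (relativeTower C f (𝟙 Y) β)) →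
          (∃ π, IsCK H X π) → (Odd r ∨ HasSelfDualCK H X) → HasSelfDualCK H Y)) ∧
    -- modifications
    (∀ (X Y Z E : 𝒱.Obj) (f : Y ⟶ X) (j : E ⟶ Y) (p : E ⟶ Z) (i : Z ⟶ X) (r s : ℕ)
      (w h : C.A E) (M N : ℚ), Y.dim = X.dim → M ≠ 0 → C.down f 1 = const C X M → j ≫ f = p ≫ i →
      0 < s → IsTowerDatum C p j r s w h N →
      ∃ β : ℕ → C.A E, IsRelativeBasis C p w h r N β ∧ IsTower C s r N (relativeTower C p j β) ∧
        (SmallComplement H (cross C M (C.cograph f) (C.cograph f) +
            towerProjector C r N (relativeTower C p j β)) →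
          HasSelfDualCK H X → (∃ π, IsCK H Z π) → (Odd r ∨ HasSelfDualCK H Z) →
          HasSelfDualCK H Y)) ∧
    -- the zero complement is small
    (∀ Y : 𝒱.Obj, SmallComplement H (dg C Y)) :=
  result_aux

end Pool.Agent.Results.MP_8a7054_ag.OddRelativeDimension
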