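import Pool.Agent.K3h96.SD.Tfae

/-!
# Criteria for the existence of self-dual Chow-Kunneth decompositions

`𝒱` is a class of smooth projective geometrically irreducible varieties over the field `k` closed
under products (for example all of them), `C` the Chow groups with rational coefficients (in the
form of their formal properties, `IsChowProj`) and `H` a Weil cohomology theory (`IsWeilProj`).
`C.comp γ δ` is the correspondence `δ ∘ γ`, and `tp C γ` is the transpose of `γ`.

For a variety `X` of dimension `d` the following are equivalent:

1. `X` has a self-dual Chow-Kunneth decomposition;
2. `X` has a Chow-Kunneth decomposition `p` with `(σ^* p_m) ∘ p_n = 0` for `m, n < d`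
   (half of the orthogonality relations between the `p_n` and the `σ^* p_n`);
3. the Kunneth projectors of degrees `n < d` lift to (arbitrary) elements of a finite dimensional
   algebra of self-correspondences of `X` which is stable under transposition;
4. they lift to elements of some algebra of self-correspondences of `X` stable under transposition,
   in which each homologically trivial element satisfies a polynomial equation over `ℚ`;
5. there is one self-correspondence `s` with `σ^* s = -s` which satisfies a polynomial equation over
   `ℚ` and acts on `H^m(X)` as the multiplication by `d - m`.

No finite dimensionality of motives and no nilpotence of homologically trivial correspondences is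
assumed. The decomposition in 2 need not be self-dual, the lifts in 3 and 4 need not be idempotents
and need not be orthogonal, and `s` in 5 need not be semisimple.
-/

open CategoryTheory AlgebraicGeometry

set_option autoImplicit false

universe u v w

namespace Pool.Agent.Results.MP_8a7054_ag.SkewWeightCriteria

open Pool.Agent.H914 Pool.Agent.W492.BB Pool.Agent.TH133 Pool.Agent.Y107 Pool.Agent.K3h96.SD

/-- Five equivalent forms of the existence of a self-dual Chow-Kunneth decomposition of `X`. -/
theorem result {k : Type u} [Field k] {𝒱 : VarClass k} (C : TheoryData.{u, v, 0} 𝒱 ℚ)
    [IsChowProj C] {K : Type w} [Field K] (H : WeilTheoryData.{u, v, w} C K) [IsWeilProj H]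
    (X : 𝒱.Obj) :
    List.TFAE [HasSelfDualCK H X, HasHalfOrthogonalCK H X, HasFiniteLifts H X,
      HasAlgebraicLifts H X, HasSkewWeight H X] :=
  criteria

end Pool.Agent.Results.MP_8a7054_ag.SkewWeightCriteria
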